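import Pool.Agent.helper83.LS.Spec

set_option autoImplicit false

/-!
# ls:RL1
-/

namespace LSH

theorem RL1 (hFA : FA_stmt) : RL1_stmt := by
  refine ⟨?_, ?_⟩
  · intro S hS hG
    obtain ⟨x, hx⟩ := Finset.card_eq_one.mp hS
    subst hx
    refine ⟨.leaf x, ⟨rfl, rfl, List.Pairwise.nil⟩, ?_⟩
    intro s hs
    rw [Finset.mem_singleton] at hs
    rw [hs]
    exact le_refl _
  · intro t ht S hS hG
    have hne : S.Nonempty := by
      rw [← Finset.card_pos, hS]
      exact Nat.succ_pos _
    obtain ⟨x, hxS, hx⟩ := S.exists_min_image (fun z => z.1) hne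
    have hins : insert x (S.erase x) = S := Finset.insert_erase hxS
    have hcard : (S.erase x).card = t.size := by
      rw [Finset.card_erase_of_mem hxS, hS]
      rfl
    have hG2 : Gen (insert x ((S.erase x : Finset Pt) : Set Pt)) := by
      rw [← Finset.coe_insert, hins]
      exact hG
    have hlt : ∀ s ∈ S.erase x, x.1 < s.1 := by
      intro s hs
      rw [Finset.mem_erase] at hs
      exact lt_of_le_of_ne (hx s hs.2) (hG x hxS s hs.2 (Ne.symm hs.1)).1
    obtain ⟨d, hd, _⟩ := (hFA t ht (S.erase x) x hcard hG2).1 hlt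
    refine ⟨.un x false d, ⟨?_, ?_, ?_⟩, fun s hs => hx s hs⟩
    · show BT.un d.shape = BT.un t
      rw [hd.1]
    · show x ::ₘ d.pts = S.val
      rw [hd.2.1, Finset.erase_val]
      exact Multiset.cons_erase hxS
    · exact hd.2.2

end LSH
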